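import Pool.Agent.Work.MP_11a08a_al.Mx.Final

set_option autoImplicit false

open scoped commutatorElement

namespace Pool.Agent.Work.MP_11a08a_al.Parked.FreePieces

/-- The linear map `∑ l, α l • ρ (h l)`. -/
noncomputable def comb {F G : Type} [Field F] [Group G] {n q : ℕ}
    (ρ : Representation F G (Fin n → F)) (h : Fin q → G) (α : Fin q → F) :
    (Fin n → F) →ₗ[F] (Fin n → F) := ∑ l, α l • ρ (h l)

/-- The rank of a linear map. -/
noncomputable def rk {F : Type} [Field F] {n : ℕ} (f : (Fin n → F) →ₗ[F] (Fin n → F)) : ℕ :=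
  Module.finrank F (LinearMap.range f)

/-- The conjectured rank bound, over every field, for the finite groups `G = B H`, where `B` is
generated by `e + 1` abelian normal subgroups `A i` that commute with each other, no element outside
the centraliser of `A i` commutes with a nontrivial element of `A i`, that centraliser lies in
`B Z(H)`, and `G / C(B)` has a metabelian subgroup of index at most `d`. -/
theorem result :
    ∀ ε : ℝ, 0 < ε → ∀ q d e : ℕ, ∃ N : ℕ, ∀ n > N,
      ∀ (F : Type) [Field F] (G : Type) [Group G] [Finite G] (A : Fin (e + 1) → Subgroup G)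
        (B H K : Subgroup G), B = ⨆ i, A i → (∀ i, (A i).Normal) →
        (∀ a ∈ B, ∀ b ∈ B, a * b = b * a) → B ⊔ H = ⊤ →
        (∀ i, ∀ g ∉ Subgroup.centralizer (A i : Set G), ∀ a ∈ A i, g * a = a * g → a = 1) →
        (∀ i, Subgroup.centralizer (A i : Set G) ≤ B ⊔ (H ⊓ Subgroup.centralizer (H : Set G))) →
        K.index ≤ d → ⁅⁅K, K⁆, ⁅K, K⁆⁆ ≤ Subgroup.centralizer (B : Set G) →
        ∀ ρ : Representation F G (Fin n → F), ρ.IsIrreducible → (Nat.card G : ℝ) ^ ε ≤ n →
        ∀ (h : Fin q → G) (α : Fin q → F),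
          comb ρ h α ≠ 0 → (n : ℝ) ^ (1 - ε) ≤ rk (comb ρ h α) := by
  intro ε hε q d e
  obtain ⟨N, hN⟩ := Pool.Agent.Work.MP_11a08a_al.Mx.final ε hε q d e
  refine ⟨N, fun n hn F _ G _ _ A B H K hB h1 h2 h3 h4 h5 h6 h7 => ?_⟩
  subst hB
  exact hN n hn F G A H K (Pool.Agent.Work.MP_11a08a_al.Mx.mixG_of h1
    (fun i j a ha b hb => h2 a (le_iSup A i ha) b (le_iSup A j hb)) h4 h3 h5) h6
    (Subgroup.commutator_le.1 h7)

end Pool.Agent.Work.MP_11a08a_al.Parked.FreePieces
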