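import Pool.Agent.Work.MP_11a08a_al.Fr.Final

set_option autoImplicit false

open scoped commutatorElement

namespace Pool.Agent.Work.MP_11a08a_al.Parked.FrobeniusAbelianKernel

/-- The linear map `∑ l, α l • ρ (h l)`. -/
noncomputable def comb {F G : Type} [Field F] [Group G] {n q : ℕ}
    (ρ : Representation F G (Fin n → F)) (h : Fin q → G) (α : Fin q → F) :
    (Fin n → F) →ₗ[F] (Fin n → F) := ∑ l, α l • ρ (h l)

/-- The rank of a linear map. -/
noncomputable def rk {F : Type} [Field F] {n : ℕ} (f : (Fin n → F) →ₗ[F] (Fin n → F)) : ℕ :=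
  Module.finrank F (LinearMap.range f)

/-- The conjectured rank bound, over every field, for the finite groups `G` with an abelian normal
subgroup `A` whose centraliser `C` lies in `A Z(G)`, such that no element outside `C` commutes with
a nontrivial element of `A` and `G / C` has a metabelian subgroup of index at most `d`. -/
theorem result :
    ∀ ε : ℝ, 0 < ε → ∀ q d : ℕ, ∃ N : ℕ, ∀ n > N,
      ∀ (F : Type) [Field F] (G : Type) [Group G] [Finite G] (A H : Subgroup G),
        A.Normal → (∀ a ∈ A, ∀ b ∈ A, a * b = b * a) →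
        Subgroup.centralizer (A : Set G) ≤ A ⊔ Subgroup.center G →
        (∀ g ∉ Subgroup.centralizer (A : Set G), ∀ a ∈ A, g * a = a * g → a = 1) →
        H.index ≤ d → ⁅⁅H, H⁆, ⁅H, H⁆⁆ ≤ Subgroup.centralizer (A : Set G) →
        ∀ ρ : Representation F G (Fin n → F), ρ.IsIrreducible → (Nat.card G : ℝ) ^ ε ≤ n →
        ∀ (h : Fin q → G) (α : Fin q → F),
          comb ρ h α ≠ 0 → (n : ℝ) ^ (1 - ε) ≤ rk (comb ρ h α) := by
  intro ε hε q d
  obtain ⟨N, hN⟩ := Pool.Agent.Work.MP_11a08a_al.Fr.final ε hε q d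
  refine ⟨N, fun n hn F _ G _ _ A H h1 h2 h3 h4 h5 h6 => hN n hn F G A H
    ⟨h1, h2, fun g hg => h3 (Pool.Agent.Work.MP_11a08a_al.Fr.mem_cz.2 hg), fun g a ha h7 h8 => ?_⟩
    h5 (Subgroup.commutator_le.1 h6)⟩
  by_contra h9
  exact h7 (h4 g (fun e => h9 (Pool.Agent.Work.MP_11a08a_al.Fr.mem_cz.1 e)) a ha h8)

end Pool.Agent.Work.MP_11a08a_al.Parked.FrobeniusAbelianKernel
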