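import Pool.Agent.Work.MP_11a08a_al.Cp.Final

set_option autoImplicit false

namespace Pool.Agent.Work.MP_11a08a_al.Parked.PrimeKernel

/-- The linear map `∑ l, α l • ρ (h l)`. -/
noncomputable def comb {F G : Type} [Field F] [Group G] {n q : ℕ}
    (ρ : Representation F G (Fin n → F)) (h : Fin q → G) (α : Fin q → F) :
    (Fin n → F) →ₗ[F] (Fin n → F) := ∑ l, α l • ρ (h l)

/-- The rank of a linear map. -/
noncomputable def rk {F : Type} [Field F] {n : ℕ} (f : (Fin n → F) →ₗ[F] (Fin n → F)) : ℕ :=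
  Module.finrank F (LinearMap.range f)

/-- The conjectured rank bound, over every field, for the finite groups `G` with a normal subgroup
`A` of prime order whose centraliser lies in `A Z(G)`. -/
theorem result :
    ∀ ε : ℝ, 0 < ε → ∀ q : ℕ, ∃ N : ℕ, ∀ n > N,
      ∀ (F : Type) [Field F] (G : Type) [Group G] [Finite G] (A : Subgroup G),
        A.Normal → (Nat.card A).Prime →
        (∀ g : G, (∀ a ∈ A, g * a = a * g) → g ∈ A ⊔ Subgroup.center G) →
        ∀ ρ : Representation F G (Fin n → F), ρ.IsIrreducible → (Nat.card G : ℝ) ^ ε ≤ n →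
        ∀ (h : Fin q → G) (α : Fin q → F),
          comb ρ h α ≠ 0 → (n : ℝ) ^ (1 - ε) ≤ rk (comb ρ h α) :=
  Pool.Agent.Work.MP_11a08a_al.Cp.final

end Pool.Agent.Work.MP_11a08a_al.Parked.PrimeKernel
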